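import Mathlib

/-! Weights for the Coxeter sorting bound. -/

namespace Pool.Agent.N476.CT

open Finset Real

/-- elementary bound for the truncated linear sum -/
lemma trunc_sum (N : ℕ) (w : ℝ) (hw : 0 < w) :
    ∑ k ∈ range N, 2 * max ((k : ℝ) * w - 1) 0 ≤ w * (N - 1 / w) ^ 2 := by
  induction N with
  | zero =>
    simp only [range_zero, sum_empty]
    positivity
  | succ N ih =>
    rw [sum_range_succ]
    have hinv : w * (1 / w) = 1 := by field_simp
    set c := 1 / w with hc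
    have hcpos : 0 < c := by positivity
    have e1 : (N : ℝ) * w - 1 = w * (N - c) := by linarith [mul_sub w (N : ℝ) c]
    push_cast
    rcases le_total ((N : ℝ) * w - 1) 0 with h | h
    · rw [max_eq_right h]
      -- N ≤ c : all terms vanish
      have hNc : (N : ℝ) ≤ c := by
        rw [e1] at h
        by_contra hcon
        push Not at hcon
        nlinarith [mul_pos hw (sub_pos.mpr hcon)]
      have hz : ∑ k ∈ range N, 2 * max ((k : ℝ) * w - 1) 0 = 0 := by
        apply sum_eq_zero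
        intro k hk
        have hkN : (k : ℝ) ≤ N := by exact_mod_cast (mem_range.mp hk).le
        have : (k : ℝ) * w - 1 ≤ 0 := by nlinarith
        rw [max_eq_right this]; ring
      rw [hz]
      have : 0 ≤ w * ((N : ℝ) + 1 - c) ^ 2 := by positivity
      linarith
    · rw [max_eq_left h, e1]
      have hNc : c ≤ (N : ℝ) := by
        rw [e1] at h
        by_contra hcon
        push Not at hcon
        nlinarith [mul_pos hw (sub_pos.mpr hcon)]
      nlinarith [mul_nonneg hw.le (sub_nonneg.mpr hNc)]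

/-- the weights -/
noncomputable def wt (s : ℝ) (j : ℕ) : ℝ := arsinh (((j : ℝ) + 1) / s) - arsinh ((j : ℝ) / s)

lemma hasDeriv_arsinh_div {s : ℝ} (hs : 0 < s) (x : ℝ) :
    HasDerivAt (fun x : ℝ => arsinh (x / s)) (1 / √(s ^ 2 + x ^ 2)) x := by
  have h1 : HasDerivAt (fun x : ℝ => x / s) (1 / s) x := by
    simpa using (hasDerivAt_id x).div_const s
  have h2 := h1.arsinh
  convert h2 using 1
  have : √(s ^ 2 + x ^ 2) = s * √(1 + (x / s) ^ 2) := by
    rw [show s ^ 2 + x ^ 2 = s ^ 2 * (1 + (x / s) ^ 2) by field_simp]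
    rw [Real.sqrt_mul (by positivity), Real.sqrt_sq hs.le]
  rw [this]
  simp only [smul_eq_mul]
  field_simp

lemma wt_bounds {s : ℝ} (hs : 0 < s) (j : ℕ) :
    1 / √(s ^ 2 + ((j : ℝ) + 1) ^ 2) ≤ wt s j ∧ wt s j ≤ 1 / √(s ^ 2 + (j : ℝ) ^ 2) := by
  obtain ⟨c, hc, hc'⟩ := exists_hasDerivAt_eq_slope (fun x : ℝ => arsinh (x / s))
    (fun x => 1 / √(s ^ 2 + x ^ 2)) (a := (j : ℝ)) (b := (j : ℝ) + 1) (by linarith)
    (fun x _ => (hasDeriv_arsinh_div hs x).continuousAt.continuousWithinAt)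
    (fun x _ => hasDeriv_arsinh_div hs x)
  have hw : wt s j = 1 / √(s ^ 2 + c ^ 2) := by
    rw [hc', wt]; simp
  have hj : (0 : ℝ) ≤ j := Nat.cast_nonneg j
  have hc0 : 0 ≤ c := hj.trans hc.1.le
  rw [hw]
  constructor
  · apply one_div_le_one_div_of_le
    · positivity
    · apply Real.sqrt_le_sqrt
      nlinarith [hc.2]
  · apply one_div_le_one_div_of_le
    · positivity
    · apply Real.sqrt_le_sqrt
      nlinarith [hc.1]

lemma wt_sum (s : ℝ) (m : ℕ) : ∑ j ∈ range m, wt s j = arsinh ((m : ℝ) / s) := by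
  unfold wt
  have := sum_range_sub (fun j : ℕ => arsinh ((j : ℝ) / s)) m
  simp only [Nat.cast_add, Nat.cast_one, Nat.cast_zero, zero_div, arsinh_zero, sub_zero] at this
  exact this

lemma step_bound {s : ℝ} (hs : 0 < s) (j : ℕ) :
    wt s j * (j : ℝ) ^ 2 + 1 / wt s j ≤
      (((j : ℝ) + 1) * √(s ^ 2 + ((j : ℝ) + 1) ^ 2) - (j : ℝ) * √(s ^ 2 + (j : ℝ) ^ 2)) +
        (√(s ^ 2 + ((j : ℝ) + 1) ^ 2) - √(s ^ 2 + (j : ℝ) ^ 2)) := by
  obtain ⟨h1, h2⟩ := wt_bounds hs j
  set u : ℝ := (j : ℝ) with hu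
  have hu0 : 0 ≤ u := Nat.cast_nonneg j
  set a := √(s ^ 2 + (u + 1) ^ 2) with ha
  set b := √(s ^ 2 + u ^ 2) with hb
  have hb0 : 0 < b := by positivity
  have ha0 : 0 < a := by positivity
  have hb2 : b ^ 2 = s ^ 2 + u ^ 2 := Real.sq_sqrt (by positivity)
  have ha2 : a ^ 2 = s ^ 2 + (u + 1) ^ 2 := Real.sq_sqrt (by positivity)
  have hwpos : 0 < wt s j := lt_of_lt_of_le (by positivity) h1
  have e1 : wt s j * u ^ 2 ≤ u ^ 2 / b := by
    calc wt s j * u ^ 2 ≤ 1 / b * u ^ 2 := by gcongr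
      _ = u ^ 2 / b := by ring
  have e2 : 1 / wt s j ≤ a := by
    calc 1 / wt s j ≤ 1 / (1 / a) := one_div_le_one_div_of_le (by positivity) h1
      _ = a := by simp
  -- tangent bound a ≥ b + u / b
  have hx : u / b ≤ 1 := by
    rw [div_le_one hb0]
    nlinarith [sq_nonneg s]
  have hub0 : 0 ≤ u / b := by positivity
  have hub : (u / b) * b = u := by field_simp
  have e3 : b + u / b ≤ a := by
    have : (b + u / b) ^ 2 ≤ a ^ 2 := by
      rw [ha2]
      have : (b + u / b) ^ 2 = b ^ 2 + 2 * ((u / b) * b) + (u / b) ^ 2 := by ring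
      rw [this, hub, hb2]
      nlinarith
    exact le_of_sq_le_sq this ha0.le |> fun h => h
  have e4 : u ^ 2 / b = u * (u / b) := by ring
  rw [e4] at e1
  nlinarith [mul_nonneg hu0 (sub_nonneg.mpr e3)]

lemma sum_bound {s : ℝ} (hs : 0 < s) (m : ℕ) :
    ∑ j ∈ range m, (wt s j * (j : ℝ) ^ 2 + 1 / wt s j) ≤
      (m : ℝ) * √(s ^ 2 + (m : ℝ) ^ 2) + √(s ^ 2 + (m : ℝ) ^ 2) := by
  have h : ∀ m : ℕ, ∑ j ∈ range m, (wt s j * (j : ℝ) ^ 2 + 1 / wt s j) ≤
      (m : ℝ) * √(s ^ 2 + (m : ℝ) ^ 2) + √(s ^ 2 + (m : ℝ) ^ 2) - √(s ^ 2) := by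
    intro m
    induction m with
    | zero => simp
    | succ m ih =>
      rw [sum_range_succ]
      have := step_bound hs m
      push_cast
      linarith
  have := h m
  have h0 : 0 ≤ √(s ^ 2) := Real.sqrt_nonneg _
  linarith

end Pool.Agent.N476.CT
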