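import Pool.Agent.N476.CT.Comb
import Pool.Agent.N476.CT.Wt

/-! Weighted average over the rotations. -/

namespace Pool.Agent.N476.CT

open Finset Equiv

variable {n : ℕ} [NeZero n]

lemma PP_sum (N : ℕ) (F : ℕ → ℕ → ℝ) :
    ∑ q ∈ PP N, F q.1 q.2 = ∑ k ∈ range N, ∑ j ∈ range N, if j < k then F k j else 0 := by
  unfold PP
  rw [sum_filter, sum_product]

lemma range_lt_sum (N k : ℕ) (hk : k < N) (c : ℝ) :
    (∑ j ∈ range N, if j < k then c else 0) = k * c := by
  rw [← sum_filter]
  have : (range N).filter (fun j => j < k) = range k := by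
    ext j; simp only [mem_filter, mem_range]; omega
  rw [this, sum_const, card_range, nsmul_eq_mul]

lemma sum_two_id (j : ℕ) : ∑ k ∈ range j, 2 * (k : ℝ) = j * (j - 1) := by
  induction j with
  | zero => simp
  | succ j ih => rw [sum_range_succ, ih]; push_cast; ring

lemma range_lt_sum' (N j : ℕ) (hj : j < N) (c : ℝ) :
    (∑ k ∈ range N, if k < j then 2 * ((k : ℝ) * c) else 0) = c * (j * (j - 1)) := by
  rw [← sum_filter]
  have : (range N).filter (fun k => k < j) = range j := by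
    ext k; simp only [mem_filter, mem_range]; omega
  rw [this, ← sum_two_id, mul_sum]
  apply sum_congr rfl
  intro k _; ring

theorem exists_rot (σ : Perm (Fin n)) {N : ℕ} (hN : 2 * N ≤ n) (w : ℕ → ℝ)
    (hw : ∀ j, 0 ≤ w j) (hs : ∑ j ∈ range N, w j = 1) :
    ∃ a : Fin n, (N : ℝ) * (N - 1) - ∑ j ∈ range N, w j * (j : ℝ) ^ 2
      - ∑ j ∈ range N, ∑ k ∈ range N, 2 * max ((k : ℝ) * w j - 1) 0 ≤ coinv σ a := by
  obtain ⟨a0, _, ha0⟩ := exists_max_image (univ : Finset (Fin n))
    (fun a : Fin n => coinv σ a) ⟨0, mem_univ _⟩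
  refine ⟨a0, ?_⟩
  set Mx : ℝ := (coinv σ a0 : ℝ) with hMx
  set X : ℕ → ℕ → ℝ := fun k j =>
    ((chi (Lp σ N k) (Up σ N k) (Lp σ N j) + chi (Lp σ N k) (Up σ N k) (Up σ N j) : ℤ) : ℝ)
    with hX
  have key : ∀ a : Fin n,
      ∑ q ∈ PP N, (2 + X q.1 q.2 - 2 * (chi (Lp σ N q.1) (Up σ N q.1) a : ℝ)) ≤ Mx := by
    intro a
    have h1 := coinv_ge σ hN (a : ℕ)
    have h2 : (coinv σ a : ℝ) ≤ Mx := by
      rw [hMx]
      exact_mod_cast ha0 a (mem_univ _)
    refine le_trans ?_ h2
    have h3 : ((∑ q ∈ PP N, (2 + chi (Lp σ N q.1) (Up σ N q.1) (Lp σ N q.2) +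
      chi (Lp σ N q.1) (Up σ N q.1) (Up σ N q.2) -
        2 * chi (Lp σ N q.1) (Up σ N q.1) a) : ℤ) : ℝ) ≤ ((coinv σ a : ℤ) : ℝ) := by
      exact_mod_cast h1
    refine le_trans (le_of_eq ?_) (le_trans h3 (le_of_eq (by simp)))
    push_cast
    apply sum_congr rfl
    intro q _
    simp only [hX]
    push_cast
    ring
  have key2 : ∀ j : ℕ, ∑ q ∈ PP N, (2 + X q.1 q.2 - X q.1 j) ≤ Mx := by
    intro j
    have h1 := key (σ.symm (lo n N j))
    have h2 := key (σ.symm (hi n N j))
    have : ∑ q ∈ PP N, (2 + X q.1 q.2 - X q.1 j) =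
        (∑ q ∈ PP N, (2 + X q.1 q.2 -
          2 * (chi (Lp σ N q.1) (Up σ N q.1) (σ.symm (lo n N j) : ℕ) : ℝ)) +
        ∑ q ∈ PP N, (2 + X q.1 q.2 -
          2 * (chi (Lp σ N q.1) (Up σ N q.1) (σ.symm (hi n N j) : ℕ) : ℝ))) / 2 := by
      rw [← sum_add_distrib, sum_div]
      apply sum_congr rfl
      intro q _
      simp only [hX, Lp, Up]
      push_cast
      ring
    rw [this]
    linarith
  have key3 : ∑ j ∈ range N, w j * ∑ q ∈ PP N, (2 + X q.1 q.2 - X q.1 j) ≤ Mx := by
    calc ∑ j ∈ range N, w j * ∑ q ∈ PP N, (2 + X q.1 q.2 - X q.1 j)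
        ≤ ∑ j ∈ range N, w j * Mx := by
          apply sum_le_sum
          intro j _
          exact mul_le_mul_of_nonneg_left (key2 j) (hw j)
      _ = Mx := by rw [← sum_mul, hs, one_mul]
  have key4 : ∑ j ∈ range N, w j * ∑ q ∈ PP N, (2 + X q.1 q.2 - X q.1 j) =
      ∑ k ∈ range N, ∑ j ∈ range N,
        ((if j < k then 2 + X k j else 0) - w j * (k * X k j)) := by
    have e1 : ∀ j : ℕ, ∑ q ∈ PP N, (2 + X q.1 q.2 - X q.1 j) =
        ∑ q ∈ PP N, (2 + X q.1 q.2) - ∑ k ∈ range N, (k : ℝ) * X k j := by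
      intro j
      rw [sum_sub_distrib]
      congr 1
      rw [PP_sum N (fun k _ => X k j)]
      apply sum_congr rfl
      intro k hk
      rw [range_lt_sum N k (mem_range.mp hk)]
    calc ∑ j ∈ range N, w j * ∑ q ∈ PP N, (2 + X q.1 q.2 - X q.1 j)
        = ∑ j ∈ range N, (w j * ∑ q ∈ PP N, (2 + X q.1 q.2)
            - w j * ∑ k ∈ range N, (k : ℝ) * X k j) := by
          apply sum_congr rfl
          intro j _
          rw [e1 j]; ring
      _ = ∑ q ∈ PP N, (2 + X q.1 q.2)
            - ∑ j ∈ range N, ∑ k ∈ range N, w j * (k * X k j) := by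
          rw [sum_sub_distrib, ← sum_mul, hs, one_mul]
          congr 1
          apply sum_congr rfl
          intro j _
          rw [mul_sum]
      _ = _ := by
          rw [PP_sum N (fun k j => 2 + X k j), sum_comm (s := range N) (t := range N)
            (f := fun j k => w j * (k * X k j)), ← sum_sub_distrib]
          apply sum_congr rfl
          intro k _
          rw [← sum_sub_distrib]
  have key5 : ∑ k ∈ range N, ∑ j ∈ range N,
      ((if j < k then (2 : ℝ) else 0) - 2 * max ((k : ℝ) * w j - 1) 0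
        - (if k < j then 2 * ((k : ℝ) * w j) else 0) - (if k = j then (k : ℝ) * w j else 0)) ≤
      ∑ k ∈ range N, ∑ j ∈ range N,
        ((if j < k then 2 + X k j else 0) - w j * (k * X k j)) := by
    apply sum_le_sum
    intro k hk
    apply sum_le_sum
    intro j hj
    rw [mem_range] at hk hj
    have hkn := lo_val (n := n) hN hk
    have hkn' := hi_val (n := n) hN hk
    have hne : Lp σ N k ≠ Up σ N k := pos_ne σ (by omega)
    have x0 : 0 ≤ X k j := by
      simp only [hX]
      exact_mod_cast add_nonneg (chi_nonneg _ _ _) (chi_nonneg _ _ _)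
    have x2 : X k j ≤ 2 := by
      simp only [hX]
      have h1 := chi_le_one (Lp σ N k) (Up σ N k) (Lp σ N j)
      have h2 := chi_le_one (Lp σ N k) (Up σ N k) (Up σ N j)
      exact_mod_cast (by linarith : chi (Lp σ N k) (Up σ N k) (Lp σ N j) +
        chi (Lp σ N k) (Up σ N k) (Up σ N j) ≤ 2)
    have hkw : 0 ≤ (k : ℝ) * w j := mul_nonneg (Nat.cast_nonneg k) (hw j)
    have hm0 : 0 ≤ max ((k : ℝ) * w j - 1) 0 := le_max_right _ _
    have hm1 : (k : ℝ) * w j - 1 ≤ max ((k : ℝ) * w j - 1) 0 := le_max_left _ _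
    rcases lt_trichotomy j k with h | h | h
    · rw [if_pos h, if_pos h, if_neg (by omega : ¬ k < j), if_neg (by omega : ¬ k = j)]
      have : w j * (k * X k j) = ((k : ℝ) * w j) * X k j := by ring
      rw [this]
      nlinarith
    · subst h
      have : X j j = 1 := by
        simp only [hX]
        rw [chi_self _ _ hne]; simp
      simp only [lt_irrefl, if_false, if_true, this]
      nlinarith
    · rw [if_neg (by omega : ¬ j < k), if_neg (by omega : ¬ j < k), if_pos h,
        if_neg (by omega : ¬ k = j)]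
      have : w j * (k * X k j) = ((k : ℝ) * w j) * X k j := by ring
      rw [this]
      nlinarith
  refine le_trans (le_of_eq ?_) (key5.trans (key4 ▸ key3))
  simp only [sum_sub_distrib]
  have f1 : (∑ k ∈ range N, ∑ j ∈ range N, if j < k then (2 : ℝ) else 0) = N * (N - 1) := by
    rw [← sum_two_id]
    apply sum_congr rfl
    intro k hk
    rw [range_lt_sum N k (mem_range.mp hk)]; ring
  have f2 : (∑ k ∈ range N, ∑ j ∈ range N, if k < j then 2 * ((k : ℝ) * w j) else 0) +
      (∑ k ∈ range N, ∑ j ∈ range N, if k = j then (k : ℝ) * w j else 0) =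
      ∑ j ∈ range N, w j * (j : ℝ) ^ 2 := by
    rw [sum_comm (f := fun (k : ℕ) (j : ℕ) => if k < j then 2 * ((k : ℝ) * w j) else 0),
      sum_comm (f := fun (k : ℕ) (j : ℕ) => if k = j then (k : ℝ) * w j else 0),
      ← sum_add_distrib]
    apply sum_congr rfl
    intro j hj
    rw [range_lt_sum' N j (mem_range.mp hj), sum_ite_eq', if_pos hj]
    ring
  have f3 : ∑ j ∈ range N, ∑ k ∈ range N, 2 * max ((k : ℝ) * w j - 1) 0 =
      ∑ k ∈ range N, ∑ j ∈ range N, 2 * max ((k : ℝ) * w j - 1) 0 := sum_comm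
  rw [f1, f3]
  linarith

end Pool.Agent.N476.CT
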