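import Mathlib

/-! Combinatorial core of the Coxeter sorting bound. -/

namespace Pool.Agent.N476.CT

open Finset Equiv

/-- `p` comes before `q` when the circle is read from the position `a` on -/
def bf (a p q : ℕ) : Prop := (a ≤ p ∧ p < q) ∨ (p < q ∧ q < a) ∨ (q < a ∧ a ≤ p)

instance (a p q : ℕ) : Decidable (bf a p q) := by unfold bf; infer_instance

/-- indicator of the arc from `L` to `U` -/
def chi (L U x : ℕ) : ℤ :=
  (if L < x then 1 else 0) + (if x ≤ U then 1 else 0) - (if L < U then 1 else 0)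

/-- indicator of `bf` -/
def bi (a p q : ℕ) : ℤ := if bf a p q then 1 else 0

lemma bf_chi (a L U e : ℕ) (_h1 : L ≠ e) (h2 : e ≠ U) (h3 : L ≠ U) :
    bi a L e + bi a e U = 1 + chi L U e - chi L U a := by
  unfold bi bf chi
  split_ifs <;> omega

lemma chi_nonneg (L U x : ℕ) : 0 ≤ chi L U x := by
  unfold chi
  split_ifs <;> omega

lemma chi_le_one (L U x : ℕ) : chi L U x ≤ 1 := by
  unfold chi
  split_ifs <;> omega

lemma chi_self (L U : ℕ) (h : L ≠ U) : chi L U L + chi L U U = 1 := by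
  unfold chi
  split_ifs <;> omega

variable {n : ℕ}

/-- number of coinversions of the rotation starting at position `a` -/
def coinv (σ : Perm (Fin n)) (a : ℕ) : ℕ :=
  (univ.filter fun p : Fin n × Fin n =>
    p.1 < p.2 ∧ bf a (σ.symm p.1 : ℕ) (σ.symm p.2 : ℕ)).card

section
variable [NeZero n] (N : ℕ)

/-- the `k`-th value below the middle -/
def lo (n N : ℕ) [NeZero n] (k : ℕ) : Fin n := Fin.ofNat n (N - 1 - k)

/-- the `k`-th value above the middle -/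
def hi (n N : ℕ) [NeZero n] (k : ℕ) : Fin n := Fin.ofNat n (n - N + k)

lemma lo_val {N k : ℕ} (hN : 2 * N ≤ n) (hk : k < N) : (lo n N k : ℕ) = N - 1 - k := by
  unfold lo
  rw [Fin.val_ofNat]
  exact Nat.mod_eq_of_lt (by omega)

lemma hi_val {N k : ℕ} (hN : 2 * N ≤ n) (hk : k < N) : (hi n N k : ℕ) = n - N + k := by
  unfold hi
  rw [Fin.val_ofNat]
  exact Nat.mod_eq_of_lt (by omega)

/-- the four pairs of values attached to `k' < k` -/
def phi (n N : ℕ) [NeZero n] (q : (ℕ × ℕ) × Fin 4) : Fin n × Fin n :=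
  match q.2 with
  | 0 => (lo n N q.1.1, lo n N q.1.2)
  | 1 => (lo n N q.1.2, hi n N q.1.1)
  | 2 => (lo n N q.1.1, hi n N q.1.2)
  | 3 => (hi n N q.1.2, hi n N q.1.1)

/-- index pairs -/
def PP (N : ℕ) : Finset (ℕ × ℕ) := (range N ×ˢ range N).filter fun q => q.2 < q.1

lemma phi_inj {N : ℕ} (hN : 2 * N ≤ n) :
    Set.InjOn (phi n N) ((PP N ×ˢ (univ : Finset (Fin 4)) : Finset _) : Set ((ℕ × ℕ) × Fin 4)) := by
  rintro ⟨⟨k, k'⟩, τ⟩ h ⟨⟨l, l'⟩, τ'⟩ h' e
  simp only [PP, coe_product, coe_filter, mem_product, mem_range, Set.mem_prod, Set.mem_ofPred_eq,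
    coe_univ, Set.mem_univ, and_true] at h h'
  obtain ⟨⟨hk, hk'⟩, hkk⟩ := h
  obtain ⟨⟨hl, hl'⟩, hll⟩ := h'
  have a1 := lo_val (n := n) hN hk
  have a2 := lo_val (n := n) hN hk'
  have a3 := hi_val (n := n) hN hk
  have a4 := hi_val (n := n) hN hk'
  have b1 := lo_val (n := n) hN hl
  have b2 := lo_val (n := n) hN hl'
  have b3 := hi_val (n := n) hN hl
  have b4 := hi_val (n := n) hN hl'
  fin_cases τ <;> fin_cases τ' <;>
    simp only [phi, Prod.mk.injEq, Fin.ext_iff, a1, a2, a3, a4, b1, b2, b3, b4] at e ⊢ <;>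
    (refine ⟨⟨?_, ?_⟩, ?_⟩ <;> first | trivial | omega)

lemma phi_lt {N : ℕ} (hN : 2 * N ≤ n) (q : (ℕ × ℕ) × Fin 4) (hq : q.1 ∈ PP N) :
    (phi n N q).1 < (phi n N q).2 := by
  obtain ⟨⟨k, k'⟩, τ⟩ := q
  simp only [PP, mem_filter, mem_product, mem_range] at hq
  obtain ⟨⟨hk, hk'⟩, hkk⟩ := hq
  have a1 := lo_val (n := n) hN hk
  have a2 := lo_val (n := n) hN hk'
  have a3 := hi_val (n := n) hN hk
  have a4 := hi_val (n := n) hN hk'
  fin_cases τ <;> simp only [phi, Fin.lt_def, a1, a2, a3, a4] <;> omega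

/-- positions of the values -/
def Lp (σ : Perm (Fin n)) (N k : ℕ) : ℕ := (σ.symm (lo n N k) : ℕ)
/-- positions of the values -/
def Up (σ : Perm (Fin n)) (N k : ℕ) : ℕ := (σ.symm (hi n N k) : ℕ)

omit [NeZero n] in
lemma pos_ne (σ : Perm (Fin n)) {x y : Fin n} (h : (x : ℕ) ≠ y) :
    (σ.symm x : ℕ) ≠ (σ.symm y : ℕ) := by
  intro e
  apply h
  have : σ.symm x = σ.symm y := Fin.ext e
  rw [σ.symm.injective this]

lemma coinv_ge (σ : Perm (Fin n)) {N : ℕ} (hN : 2 * N ≤ n) (a : ℕ) :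
    ∑ q ∈ PP N, (2 + chi (Lp σ N q.1) (Up σ N q.1) (Lp σ N q.2) +
      chi (Lp σ N q.1) (Up σ N q.1) (Up σ N q.2) -
        2 * chi (Lp σ N q.1) (Up σ N q.1) a) ≤ (coinv σ a : ℤ) := by
  set g : Fin n × Fin n → ℤ := fun p =>
    if p.1 < p.2 ∧ bf a (σ.symm p.1 : ℕ) (σ.symm p.2 : ℕ) then 1 else 0 with hg
  have h1 : (coinv σ a : ℤ) = ∑ p, g p := by
    unfold coinv
    rw [card_filter]
    push_cast
    rfl
  have h2 : ∑ t ∈ PP N ×ˢ (univ : Finset (Fin 4)), g (phi n N t) ≤ ∑ p, g p := by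
    rw [← sum_image (phi_inj hN)]
    apply sum_le_sum_of_subset_of_nonneg (subset_univ _)
    intro p _ _
    simp only [hg]
    split_ifs <;> simp
  rw [h1]
  refine le_trans (le_of_eq ?_) h2
  rw [sum_product]
  apply sum_congr rfl
  rintro ⟨k, k'⟩ hq
  have hq' := hq
  simp only [PP, mem_filter, mem_product, mem_range] at hq'
  obtain ⟨⟨hk, hk'⟩, hkk⟩ := hq'
  have a1 := lo_val (n := n) hN hk
  have a2 := lo_val (n := n) hN hk'
  have a3 := hi_val (n := n) hN hk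
  have a4 := hi_val (n := n) hN hk'
  have gg : ∀ τ : Fin 4, g (phi n N ((k, k'), τ)) =
      bi a (σ.symm (phi n N ((k, k'), τ)).1 : ℕ) (σ.symm (phi n N ((k, k'), τ)).2 : ℕ) := by
    intro τ
    have := phi_lt hN ((k, k'), τ) hq
    simp only [hg, this, true_and, bi]
  rw [Fin.sum_univ_four, gg, gg, gg, gg]
  simp only [phi]
  have d1 : Lp σ N k ≠ Lp σ N k' := pos_ne σ (by omega)
  have d2 : Lp σ N k' ≠ Up σ N k := pos_ne σ (by omega)
  have d3 : Lp σ N k ≠ Up σ N k := pos_ne σ (by omega)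
  have d4 : Lp σ N k ≠ Up σ N k' := pos_ne σ (by omega)
  have d5 : Up σ N k' ≠ Up σ N k := pos_ne σ (by omega)
  have e1 := bf_chi a (Lp σ N k) (Up σ N k) (Lp σ N k') d1 d2 d3
  have e2 := bf_chi a (Lp σ N k) (Up σ N k) (Up σ N k') d4 d5 d3
  simp only [Lp, Up] at e1 e2 ⊢
  linarith

end

end Pool.Agent.N476.CT
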