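import Mathlib

/-! The graph of `n`-cycles and inversion numbers. -/

namespace Pool.Agent.N476.CT

open Finset Equiv

variable {n : ℕ}

/-- number of inversions -/
def inv (σ : Perm (Fin n)) : ℕ :=
  (univ.filter fun p : Fin n × Fin n => p.1 < p.2 ∧ σ p.2 < σ p.1).card

lemma swap_lt {i j x y : Fin n} (hij : (i : ℕ) + 1 = j) (h : swap i j y < swap i j x) :
    y < x ∨ (x = i ∧ y = j) := by
  rw [swap_apply_def, swap_apply_def] at h
  simp only [Fin.lt_def, Fin.ext_iff] at *
  split_ifs at h <;> omega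

/-- a non-identity permutation has consecutive values in the wrong order -/
lemma exists_desc (σ : Perm (Fin n)) (h : σ ≠ 1) :
    ∃ i j : Fin n, (i : ℕ) + 1 = j ∧ σ.symm j < σ.symm i := by
  by_contra hcon
  push Not at hcon
  apply h
  rcases n with _ | m
  · exact Subsingleton.elim _ _
  have hmono : StrictMono (σ.symm : Fin (m + 1) → Fin (m + 1)) := by
    rw [Fin.strictMono_iff_lt_succ]
    intro i
    have h1 := hcon i.castSucc i.succ (by simp)
    refine lt_of_le_of_ne h1 ?_
    intro e
    have := σ.symm.injective e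
    exact absurd this (ne_of_lt (Fin.castSucc_lt_succ))
  have e : (hmono.orderIsoOfSurjective _ σ.symm.surjective) = OrderIso.refl _ :=
    Subsingleton.elim _ _
  have e2 : ∀ x, σ.symm x = x := by
    intro x
    have := congrArg (fun f : Fin (m + 1) ≃o Fin (m + 1) => f x) e
    simpa using this
  ext x
  have := e2 (σ x)
  simp only [symm_apply_apply] at this
  simp [← this]

lemma inv_swap {σ : Perm (Fin n)} {i j : Fin n} (hij : (i : ℕ) + 1 = j)
    (h : σ.symm j < σ.symm i) : inv (swap i j * σ) < inv σ := by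
  unfold inv
  have hsub : (univ.filter fun p : Fin n × Fin n =>
      p.1 < p.2 ∧ (swap i j * σ) p.2 < (swap i j * σ) p.1) ⊆
      (univ.filter fun p : Fin n × Fin n => p.1 < p.2 ∧ σ p.2 < σ p.1) := by
    intro p hp
    rw [mem_filter] at hp ⊢
    obtain ⟨_, hp1, hp2⟩ := hp
    refine ⟨mem_univ _, hp1, ?_⟩
    rw [Perm.mul_apply, Perm.mul_apply] at hp2
    rcases swap_lt hij hp2 with h1 | ⟨h1, h2⟩
    · exact h1
    · exfalso
      rw [← h1, ← h2] at h
      simp only [symm_apply_apply] at h
      exact absurd hp1 (not_lt.mpr h.le)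
  apply card_lt_card
  rw [ssubset_iff_of_subset hsub]
  refine ⟨(σ.symm j, σ.symm i), ?_, ?_⟩
  · rw [mem_filter]
    refine ⟨mem_univ _, h, ?_⟩
    simp only [apply_symm_apply]
    rw [Fin.lt_def]; omega
  · rw [mem_filter]
    rintro ⟨_, _, h3⟩
    simp only [Perm.mul_apply, apply_symm_apply, swap_apply_left, swap_apply_right] at h3
    rw [Fin.lt_def] at h3
    omega

/-- the conjugacy class of the cycle `(1, 2, …, n)` -/
abbrev Cyc (n : ℕ) : Type := {γ : Perm (Fin n) // IsConj (finRotate n) γ}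

/-- the cycle `(1, 2, …, n)` -/
def cyc (n : ℕ) : Cyc n := ⟨finRotate n, IsConj.refl _⟩

/-- the graph on the `n`-cycles: conjugation by the adjacent transpositions -/
def Gam (n : ℕ) : SimpleGraph (Cyc n) where
  Adj a b := a ≠ b ∧ ∃ i j : Fin n, (i : ℕ) + 1 = j ∧ b.1 = swap i j * a.1 * swap i j
  symm := ⟨by
    rintro a b ⟨h1, i, j, hij, h2⟩
    refine ⟨h1.symm, i, j, hij, ?_⟩
    rw [h2]
    simp only [← mul_assoc, swap_mul_self, one_mul]
    rw [mul_assoc, swap_mul_self, mul_one]⟩
  loopless := ⟨fun a h => h.1 rfl⟩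

theorem edist_le (σ : Perm (Fin n)) (γ : Cyc n) (h : γ.1 = σ * finRotate n * σ⁻¹) :
    (Gam n).edist (cyc n) γ ≤ inv σ := by
  induction hk : inv σ using Nat.strong_induction_on generalizing σ γ with
  | _ k ih =>
    by_cases h1 : σ = 1
    · subst h1
      have : γ = cyc n := by
        apply Subtype.ext
        rw [h]
        simp [cyc]
      rw [this]
      simp
    · obtain ⟨i, j, hij, hd⟩ := exists_desc σ h1
      have hlt := inv_swap hij hd
      set σ' := swap i j * σ with hσ'
      have hconj : IsConj (finRotate n) (σ' * finRotate n * σ'⁻¹) := isConj_iff.mpr ⟨σ', rfl⟩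
      have := ih (inv σ') (hk ▸ hlt) σ' ⟨_, hconj⟩ rfl rfl
      have hrel : γ.1 = swap i j * (σ' * finRotate n * σ'⁻¹) * swap i j := by
        rw [h, hσ', mul_inv_rev, swap_inv]
        simp only [mul_assoc, swap_mul_self, mul_one]
        simp only [← mul_assoc, swap_mul_self, one_mul]
      have hstep : (Gam n).edist ⟨_, hconj⟩ γ ≤ 1 := by
        by_cases he : (⟨_, hconj⟩ : Cyc n) = γ
        · rw [he]; simp
        · have : (Gam n).Adj ⟨_, hconj⟩ γ := ⟨he, i, j, hij, hrel⟩
          rw [SimpleGraph.edist_eq_one_iff_adj.mpr this]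
      calc (Gam n).edist (cyc n) γ
          ≤ (Gam n).edist (cyc n) ⟨_, hconj⟩ + (Gam n).edist ⟨_, hconj⟩ γ :=
            SimpleGraph.edist_triangle
        _ ≤ (inv σ' : ℕ∞) + 1 := add_le_add this hstep
        _ ≤ k := by
          rw [← hk]
          exact_mod_cast hlt

lemma rot_apply {m : ℕ} (k : ℕ) (j : Fin (m + 1)) :
    ((finRotate (m + 1)) ^ k) j = j + (Fin.ofNat (m + 1) k) := by
  induction k generalizing j with
  | zero => simp
  | succ k ih =>
    rw [pow_succ, Perm.mul_apply, finRotate_apply, ih]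
    apply Fin.ext
    simp only [Fin.val_add, Fin.val_ofNat, Fin.val_one']
    simp only [Nat.add_mod_mod, Nat.mod_add_mod]
    congr 1
    ring

end Pool.Agent.N476.CT
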