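import Pool.Agent.N476.CT.Main
import Pool.Agent.N476.CT.Graph

/-! Assembly. -/

namespace Pool.Agent.N476.CT

open Finset Equiv Real

lemma card_lt_pairs (n : ℕ) :
    2 * (univ.filter fun p : Fin n × Fin n => p.1 < p.2).card = n * (n - 1) := by
  have h : (univ.filter fun p : Fin n × Fin n => p.1 < p.2).card = ∑ i ∈ range n, i := by
    rw [card_filter, Fintype.sum_prod_type_right, ← Fin.sum_univ_eq_sum_range (fun i => i)]
    apply sum_congr rfl
    intro y _
    rw [← card_filter]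
    have : (univ.filter fun x : Fin n => x < y) = Iio y := by ext x; simp
    rw [this, Fin.card_Iio]
  rw [h, mul_comm, sum_range_id_mul_two]

lemma bf_sub {m : ℕ} (a i j : Fin (m + 1)) :
    i < j ↔ bf a (i + a : Fin (m + 1)) (j + a : Fin (m + 1)) := by
  unfold bf
  rw [Fin.val_add, Fin.val_add, Fin.lt_def]
  have ha := a.2
  have hi := i.2
  have hj := j.2
  have e : ∀ x : Fin (m + 1), ((x : ℕ) + a) % (m + 1) =
      if (x : ℕ) + a < m + 1 then (x : ℕ) + a else (x : ℕ) + a - (m + 1) := by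
    intro x
    have hx := x.2
    split_ifs with h
    · exact Nat.mod_eq_of_lt h
    · rw [Nat.mod_eq_sub_mod (by omega), Nat.mod_eq_of_lt (by omega)]
  rw [e i, e j]
  split_ifs <;> omega

lemma bf_excl {a p q : ℕ} (h : bf a p q) : ¬ bf a q p := by
  unfold bf at *; omega

lemma inv_add_coinv {m : ℕ} (σ : Perm (Fin (m + 1))) (a : Fin (m + 1)) :
    inv (σ * (finRotate (m + 1)) ^ (a : ℕ)) + coinv σ a ≤
      (univ.filter fun p : Fin (m + 1) × Fin (m + 1) => p.1 < p.2).card := by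
  set ψ : Fin (m + 1) × Fin (m + 1) → Fin (m + 1) × Fin (m + 1) :=
    fun p => (σ (p.2 + a), σ (p.1 + a)) with hψ
  have hinj : Function.Injective ψ := by
    rintro ⟨i, j⟩ ⟨i', j'⟩ h
    simp only [hψ, Prod.mk.injEq, EmbeddingLike.apply_eq_iff_eq, add_left_inj] at h
    rw [h.1, h.2]
  have happ : ∀ j, (σ * (finRotate (m + 1)) ^ (a : ℕ)) j = σ (j + a) := by
    intro j
    rw [Perm.mul_apply, rot_apply]
    congr 2
    apply Fin.ext
    rw [Fin.val_ofNat]
    exact Nat.mod_eq_of_lt a.2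
  unfold inv coinv
  rw [← card_image_of_injective _ hinj, ← card_union_of_disjoint]
  · apply card_le_card
    intro p hp
    rw [mem_union] at hp
    rw [mem_filter]
    refine ⟨mem_univ _, ?_⟩
    rcases hp with hp | hp
    · rw [mem_image] at hp
      obtain ⟨q, hq, rfl⟩ := hp
      rw [mem_filter] at hq
      have := hq.2.2
      rw [happ, happ] at this
      exact this
    · rw [mem_filter] at hp
      exact hp.2.1
  · rw [disjoint_left]
    intro p hp hp'
    rw [mem_image] at hp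
    obtain ⟨q, hq, rfl⟩ := hp
    rw [mem_filter] at hq hp'
    have h1 := (bf_sub a q.1 q.2).mp hq.2.1
    have h2 := hp'.2.2
    simp only [hψ, symm_apply_apply] at h2
    exact bf_excl h1 h2

theorem exists_inv {n : ℕ} (hn : 1 ≤ n) (σ : Perm (Fin n)) :
    ∃ i < n, (inv (σ * (finRotate n) ^ i) : ℝ) ≤
      (1 / 2 - tanh 1 / 4) * (n : ℝ) ^ 2 + 3 * n := by
  obtain ⟨m, rfl⟩ : ∃ m, n = m + 1 := ⟨n - 1, by omega⟩
  obtain ⟨a, ha⟩ := exists_coinv σ (N := (m + 1) / 2) (by omega)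
  refine ⟨a, a.2, ?_⟩
  have h1 := inv_add_coinv σ a
  have h2 := card_lt_pairs (m + 1)
  have h3 : 2 * ((inv (σ * (finRotate (m + 1)) ^ (a : ℕ)) : ℝ) + coinv σ a) ≤
      (m + 1 : ℝ) * m := by
    have : 2 * (inv (σ * (finRotate (m + 1)) ^ (a : ℕ)) + coinv σ a) ≤ (m + 1) * m := by
      rw [show (m + 1) * m = (m + 1) * (m + 1 - 1) by simp, ← h2]
      omega
    exact_mod_cast this
  set N : ℕ := (m + 1) / 2 with hN
  have hN1 : (m : ℝ) ≤ 2 * N := by
    have : m ≤ 2 * N := by omega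
    exact_mod_cast this
  have hN2 : 2 * (N : ℝ) ≤ m + 1 := by
    have : 2 * N ≤ m + 1 := by omega
    exact_mod_cast this
  have ht0 := tanh_one_pos
  have ht1 := tanh_one_lt_one
  set t := tanh 1 with ht
  have hm0 : (0 : ℝ) ≤ m := Nat.cast_nonneg m
  have hsq : (m : ℝ) ^ 2 ≤ 4 * (N : ℝ) ^ 2 := by nlinarith
  have hsq' : t * (m : ℝ) ^ 2 ≤ t * (4 * (N : ℝ) ^ 2) := mul_le_mul_of_nonneg_left hsq ht0.le
  push_cast
  nlinarith

/-- every `n`-cycle is within the stated distance of `(1, 2, …, n)` -/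
theorem edist_bound {n : ℕ} (hn : 1 ≤ n) (γ : Cyc n) :
    ∃ k : ℕ, (Gam n).edist (cyc n) γ ≤ k ∧
      (k : ℝ) ≤ (1 / 2 - tanh 1 / 4) * (n : ℝ) ^ 2 + 3 * n := by
  obtain ⟨σ, hσ⟩ := isConj_iff.mp γ.2
  obtain ⟨i, _, hi⟩ := exists_inv hn σ
  refine ⟨_, edist_le (σ * (finRotate n) ^ i) γ ?_, hi⟩
  rw [← hσ, mul_inv_rev]
  have : (finRotate n) ^ i * finRotate n * ((finRotate n) ^ i)⁻¹ = finRotate n := by
    rw [← pow_succ, pow_succ', mul_assoc, mul_inv_cancel, mul_one]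
  calc σ * finRotate n * σ⁻¹
      = σ * ((finRotate n) ^ i * finRotate n * ((finRotate n) ^ i)⁻¹) * σ⁻¹ := by rw [this]
    _ = _ := by group

end Pool.Agent.N476.CT
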