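import Pool.Agent.N476.CT.Avg

/-! The bound with the constant `tanh 1`. -/

namespace Pool.Agent.N476.CT

open Finset Equiv Real

variable {n : ℕ} [NeZero n]

lemma sinh_one_pos : 0 < sinh 1 := Real.sinh_pos_iff.mpr one_pos

lemma tanh_one_pos : 0 < tanh 1 := by
  rw [Real.tanh_eq_sinh_div_cosh]
  exact div_pos sinh_one_pos (Real.cosh_pos 1)

lemma tanh_one_lt_one : tanh 1 < 1 := Real.tanh_lt_one 1

lemma tanh_one_half : 1 / 2 ≤ tanh 1 := by
  rw [Real.tanh_eq_sinh_div_cosh, div_le_div_iff₀ (by norm_num) (Real.cosh_pos 1)]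
  rw [Real.sinh_eq, Real.cosh_eq]
  have h1 := Real.exp_one_gt_d9
  have h2 : rexp 1 * rexp (-1) = 1 := by rw [← Real.exp_add]; simp
  have h3 : 0 < rexp (-1) := Real.exp_pos _
  nlinarith

theorem exists_coinv (σ : Perm (Fin n)) {N : ℕ} (hN : 2 * N ≤ n) :
    ∃ a : Fin n, tanh 1 * (N : ℝ) ^ 2 - 2 * N - 2 ≤ coinv σ a := by
  set t := tanh 1 with ht
  have ht0 : 0 < t := tanh_one_pos
  have ht1 : t < 1 := tanh_one_lt_one
  have hth : 1 / 2 ≤ t := tanh_one_half
  set m : ℕ := ⌊t * N⌋₊ with hm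
  have hN0 : (0 : ℝ) ≤ N := Nat.cast_nonneg N
  have hm1 : (m : ℝ) ≤ t * N := Nat.floor_le (by positivity)
  have hm2 : t * N < m + 1 := Nat.lt_floor_add_one _
  rcases Nat.eq_zero_or_pos m with h0 | hpos
  · refine ⟨0, ?_⟩
    rw [h0] at hm2
    push_cast at hm2
    have h1 : (0 : ℝ) ≤ coinv σ ((0 : Fin n) : ℕ) := Nat.cast_nonneg _
    nlinarith
  have hmr : (0 : ℝ) < m := by exact_mod_cast hpos
  have hmN : m ≤ N := by
    have : (m : ℝ) ≤ N := by nlinarith
    exact_mod_cast this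
  set s : ℝ := m / sinh 1 with hs
  have hs0 : 0 < s := div_pos hmr sinh_one_pos
  set w : ℕ → ℝ := fun j => if j < m then wt s j else 0 with hw
  have wpos : ∀ j, 0 < wt s j := fun j =>
    lt_of_lt_of_le (by positivity) (wt_bounds hs0 j).1
  have hwn : ∀ j, 0 ≤ w j := by
    intro j
    simp only [hw]
    split_ifs
    · exact (wpos j).le
    · exact le_rfl
  have sumw : ∀ F : ℕ → ℝ, (∑ j ∈ range N, if j < m then F j else 0) = ∑ j ∈ range m, F j := by
    intro F
    rw [← sum_filter]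
    congr 1
    ext j; simp only [mem_filter, mem_range]; omega
  have hws : ∑ j ∈ range N, w j = 1 := by
    rw [sumw, wt_sum]
    have : (m : ℝ) / s = sinh 1 := by
      rw [hs]; field_simp
    rw [this, Real.arsinh_sinh]
  obtain ⟨a, ha⟩ := exists_rot σ hN w hwn hws
  refine ⟨a, le_trans ?_ ha⟩
  have b1 : ∑ j ∈ range N, w j * (j : ℝ) ^ 2 = ∑ j ∈ range m, wt s j * (j : ℝ) ^ 2 := by
    rw [← sumw]
    apply sum_congr rfl
    intro j _
    simp only [hw]
    split_ifs <;> simp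
  have b2 : ∑ j ∈ range N, ∑ k ∈ range N, 2 * max ((k : ℝ) * w j - 1) 0 ≤
      ∑ j ∈ range m, (wt s j * (N : ℝ) ^ 2 - 2 * N + 1 / wt s j) := by
    rw [← sumw]
    apply sum_le_sum
    intro j _
    simp only [hw]
    split_ifs with h
    · refine (trunc_sum N (wt s j) (wpos j)).trans (le_of_eq ?_)
      have := (wpos j).ne'
      field_simp
      ring
    · simp
  have b3 : ∑ j ∈ range m, (wt s j * (N : ℝ) ^ 2 - 2 * N + 1 / wt s j) =
      (N : ℝ) ^ 2 - 2 * N * m + ∑ j ∈ range m, 1 / wt s j := by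
    rw [sum_add_distrib, sum_sub_distrib, ← sum_mul, sum_const, card_range, nsmul_eq_mul]
    rw [sumw] at hws
    rw [hws]; ring
  have b4 := sum_bound hs0 m
  rw [sum_add_distrib] at b4
  have hsq : √(s ^ 2 + (m : ℝ) ^ 2) = m / t := by
    have hsh := sinh_one_pos
    have hch := Real.cosh_pos 1
    have e : s ^ 2 + (m : ℝ) ^ 2 = (m / t) ^ 2 := by
      rw [hs, ht, Real.tanh_eq_sinh_div_cosh]
      have := Real.cosh_sq 1
      field_simp
      rw [this]; ring
    rw [e, Real.sqrt_sq (by positivity)]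
  rw [hsq] at b4
  have hmt : (m : ℝ) / t ≤ N := by rw [div_le_iff₀ ht0]; linarith
  have e5 : (m : ℝ) * (m / t) = 2 * N * m - t * (N : ℝ) ^ 2 + (t * N - m) ^ 2 / t := by
    field_simp
    ring
  have e6 : (t * N - m) ^ 2 / t ≤ 2 := by
    rw [div_le_iff₀ ht0]
    nlinarith
  rw [b1]
  nlinarith

end Pool.Agent.N476.CT
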